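import Pool.Agent.V1183.SV.Interp

set_option autoImplicit false

/-!
# Polynomial functions of the powers of matrices which are close to one
-/

namespace Pool.Agent.V1183.SV

open Finset Polynomial

variable {p : ℕ} [hp : Fact p.Prime] {d : ℕ}

/-- entries of norm at most `r` -/
def Le (r : ℝ) (A : Matrix (Fin d) (Fin d) ℚ_[p]) : Prop := ∀ a b, ‖A a b‖ ≤ r

omit hp in
theorem rp_pos [hp : Fact p.Prime] (i : ℕ) : (0 : ℝ) < (p : ℝ) ^ (-(i : ℤ)) := by
  have : (0 : ℝ) < p := by exact_mod_cast hp.out.pos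
  positivity

theorem rp_anti {i j : ℕ} (h : i ≤ j) : (p : ℝ) ^ (-(j : ℤ)) ≤ (p : ℝ) ^ (-(i : ℤ)) := by
  have h1 : (1 : ℝ) ≤ p := by exact_mod_cast hp.out.one_le
  apply zpow_le_zpow_right₀ h1
  omega

theorem rp_le_one (i : ℕ) : (p : ℝ) ^ (-(i : ℤ)) ≤ 1 := by
  have := rp_anti (p := p) (Nat.zero_le i)
  simpa using this

theorem norm_sum_le_of {ι : Type*} (s : Finset ι) (f : ι → ℚ_[p]) {r : ℝ} (hr : 0 ≤ r)
    (h : ∀ i ∈ s, ‖f i‖ ≤ r) : ‖∑ i ∈ s, f i‖ ≤ r :=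
  IsUltrametricDist.norm_sum_le_of_forall_le_of_nonneg hr h

theorem Le.mul {r r' : ℝ} (hr : 0 ≤ r) (hr' : 0 ≤ r') {A B : Matrix (Fin d) (Fin d) ℚ_[p]}
    (hA : Le r A) (hB : Le r' B) : Le (r * r') (A * B) := by
  intro a b
  rw [Matrix.mul_apply]
  refine norm_sum_le_of _ _ (by positivity) fun k _ => ?_
  rw [norm_mul]
  exact mul_le_mul (hA a k) (hB k b) (norm_nonneg _) hr

theorem Le.add {r : ℝ} {A B : Matrix (Fin d) (Fin d) ℚ_[p]}
    (hA : Le r A) (hB : Le r B) : Le r (A + B) := by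
  intro a b
  exact (Padic.nonarchimedean _ _).trans (max_le (hA a b) (hB a b))

theorem Le.mono {r r' : ℝ} (h : r ≤ r') {A : Matrix (Fin d) (Fin d) ℚ_[p]} (hA : Le r A) : Le r' A :=
  fun a b => (hA a b).trans h

theorem le_one : Le 1 (1 : Matrix (Fin d) (Fin d) ℚ_[p]) := by
  intro a b
  rw [Matrix.one_apply]
  split_ifs <;> simp

theorem Le.pow_one {A : Matrix (Fin d) (Fin d) ℚ_[p]} (hA : Le 1 A) (k : ℕ) : Le 1 (A ^ k) := by
  induction k with
  | zero => rw [pow_zero]; exact le_one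
  | succ k ih =>
    rw [pow_succ]
    have := ih.mul zero_le_one zero_le_one hA
    rwa [mul_one] at this

theorem Le.pow {r : ℝ} (hr : 0 ≤ r) {A : Matrix (Fin d) (Fin d) ℚ_[p]} (hA : Le r A) (k : ℕ) :
    Le (r ^ k) (A ^ k) := by
  induction k with
  | zero => rw [pow_zero, pow_zero]; exact le_one
  | succ k ih =>
    rw [pow_succ, pow_succ]
    exact ih.mul (by positivity) hr hA

theorem Le.trace {r : ℝ} (hr : 0 ≤ r) {A : Matrix (Fin d) (Fin d) ℚ_[p]} (hA : Le r A) :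
    ‖A.trace‖ ≤ r := norm_sum_le_of _ _ hr fun a _ => hA a a

/-- integral if close to one -/
theorem le_one_of_near {i : ℕ} {A : Matrix (Fin d) (Fin d) ℚ_[p]}
    (hA : Le ((p : ℝ) ^ (-(i : ℤ))) (A - 1)) : Le 1 A := by
  have h1 : A = (A - 1) + 1 := by rw [sub_add_cancel]
  rw [h1]
  exact (hA.mono (rp_le_one i)).add le_one

/-- powers of nearby matrices -/
theorem pow_near {r : ℝ} (hr : 0 ≤ r) {X Y : Matrix (Fin d) (Fin d) ℚ_[p]} (hX : Le 1 X)
    (hY : Le 1 Y) (h : Le r (X - Y)) (l : ℕ) : Le r (X ^ l - Y ^ l) := by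
  induction l with
  | zero =>
    rw [pow_zero, pow_zero, sub_self]
    intro a b
    simpa using hr
  | succ l ih =>
    have e : X ^ (l + 1) - Y ^ (l + 1) = X * (X ^ l - Y ^ l) + (X - Y) * Y ^ l := by
      rw [pow_succ', pow_succ', mul_sub, sub_mul]
      abel
    rw [e]
    refine Le.add ?_ ?_
    · have := hX.mul zero_le_one hr ih
      rwa [one_mul] at this
    · have := h.mul hr zero_le_one (hY.pow_one l)
      rwa [mul_one] at this


/-- sums of integer polynomials with small coefficients, on `{0, …, R}` -/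
def Good (p : ℕ) [Fact p.Prime] (R : ℕ) (C : ℝ) (φ : ℕ → ℚ_[p]) : Prop :=
  ∃ (I : Type) (_ : Fintype I) (u : I → ℚ_[p]) (q : I → ℤ[X]),
    (∀ t, ‖u t‖ ≤ C * (p : ℝ) ^ (-((q t).natDegree : ℤ))) ∧
    ∀ s ≤ R, φ s = ∑ t, u t * (((q t).eval (s : ℤ) : ℤ) : ℚ_[p])

theorem Good.mono {R : ℕ} {C C' : ℝ} {φ : ℕ → ℚ_[p]} (h : Good p R C φ) (hC : C ≤ C') :
    Good p R C' φ := by
  obtain ⟨I, hI, u, q, h1, h2⟩ := h
  exact ⟨I, hI, u, q, fun t => (h1 t).trans (mul_le_mul_of_nonneg_right hC (rp_pos _).le), h2⟩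

theorem Good.const {R : ℕ} (a : ℚ_[p]) : Good p R ‖a‖ (fun _ => a) := by
  refine ⟨Unit, inferInstance, fun _ => a, fun _ => 1, fun t => ?_, fun s _ => ?_⟩
  · rw [natDegree_one]
    simp
  · simp

theorem Good.add {R : ℕ} {C : ℝ} {φ ψ : ℕ → ℚ_[p]} (h1 : Good p R C φ) (h2 : Good p R C ψ) :
    Good p R C (fun s => φ s + ψ s) := by
  obtain ⟨I, hI, u, q, hu, hφ⟩ := h1
  obtain ⟨J, hJ, v, r, hv, hψ⟩ := h2
  refine ⟨I ⊕ J, inferInstance, Sum.elim u v, Sum.elim q r, ?_, fun s hs => ?_⟩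
  · rintro (t | t)
    · exact hu t
    · exact hv t
  · change φ s + ψ s = _
    rw [Fintype.sum_sum_type, hφ s hs, hψ s hs]
    rfl

theorem Good.mul {R : ℕ} {C C' : ℝ} (hC : 0 ≤ C) {φ ψ : ℕ → ℚ_[p]} (h1 : Good p R C φ)
    (h2 : Good p R C' ψ) : Good p R (C * C') (fun s => φ s * ψ s) := by
  obtain ⟨I, hI, u, q, hu, hφ⟩ := h1
  obtain ⟨J, hJ, v, r, hv, hψ⟩ := h2
  refine ⟨I × J, inferInstance, fun t => u t.1 * v t.2, fun t => q t.1 * r t.2, ?_,
    fun s hs => ?_⟩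
  · rintro ⟨t, t'⟩
    have hC' : 0 ≤ C' := by
      have h3 := (norm_nonneg _).trans (hv t')
      have h4 := rp_pos (p := p) (r t').natDegree
      exact nonneg_of_mul_nonneg_left h3 h4
    have hp0 : (0 : ℝ) < p := by exact_mod_cast hp.out.pos
    change ‖u t * v t'‖ ≤ C * C' * (p : ℝ) ^ (-(((q t * r t').natDegree : ℕ) : ℤ))
    rw [norm_mul]
    calc ‖u t‖ * ‖v t'‖ ≤ (C * (p : ℝ) ^ (-((q t).natDegree : ℤ))) *
          (C' * (p : ℝ) ^ (-((r t').natDegree : ℤ))) :=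
          mul_le_mul (hu t) (hv t') (norm_nonneg _) (mul_nonneg hC (rp_pos _).le)
      _ = C * C' * (p : ℝ) ^ (-(((q t).natDegree + (r t').natDegree : ℕ) : ℤ)) := by
          rw [Nat.cast_add, neg_add, zpow_add₀ hp0.ne']
          ring
      _ ≤ _ := mul_le_mul_of_nonneg_left (rp_anti natDegree_mul_le) (mul_nonneg hC hC')
  · change φ s * ψ s = _
    rw [Fintype.sum_prod_type, hφ s hs, hψ s hs, Finset.sum_mul_sum]
    refine sum_congr rfl fun t _ => sum_congr rfl fun t' _ => ?_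
    change _ = u t * v t' * (((q t * r t').eval (s : ℤ) : ℤ) : ℚ_[p])
    rw [eval_mul]
    push_cast
    ring

theorem Good.interp {R M N : ℕ} {C : ℝ} (hC : 0 ≤ C) {φ : ℕ → ℚ_[p]} (h : Good p R C φ)
    (hN : 1 ≤ N) (hR : 1 ≤ R) (hR' : N * M ≤ R) :
    ‖φ 1 - ∑ l ∈ range M, ((wt M N l : ℚ) : ℚ_[p]) * φ (N * l)‖ ≤ C * (p : ℝ) ^ (-(M : ℤ)) := by
  obtain ⟨I, hI, u, q, hu, hφ⟩ := h
  choose z hz hz0 using fun t => Pool.Agent.V1183.SV.interp (M := M) hN (q t)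
  have h2 : φ 1 - ∑ l ∈ range M, ((wt M N l : ℚ) : ℚ_[p]) * φ (N * l) =
      ∑ t, u t * (z t : ℚ_[p]) := by
    rw [hφ 1 hR]
    have h3 : ∀ l ∈ range M, ((wt M N l : ℚ) : ℚ_[p]) * φ (N * l) =
        ∑ t, u t * (((wt M N l : ℚ) : ℚ_[p]) *
          (((q t).eval ((N * l : ℕ) : ℤ) : ℤ) : ℚ_[p])) := by
      intro l hl
      rw [hφ (N * l) ((Nat.mul_le_mul_left _ (mem_range.1 hl).le).trans hR'), mul_sum]
      refine sum_congr rfl fun t _ => ?_
      ring
    rw [sum_congr rfl h3, sum_comm, ← sum_sub_distrib]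
    refine sum_congr rfl fun t _ => ?_
    rw [← mul_sum, ← mul_sub]
    congr 1
    have h4 := congrArg (fun x : ℚ => (x : ℚ_[p])) (hz t)
    push_cast at h4 ⊢
    exact h4
  rw [h2]
  refine norm_sum_le_of _ _ (mul_nonneg hC (rp_pos M).le) fun t _ => ?_
  rcases lt_or_ge (q t).natDegree M with hm | hm
  · rw [hz0 t hm, Int.cast_zero, mul_zero, norm_zero]
    exact mul_nonneg hC (rp_pos M).le
  · rw [norm_mul]
    calc ‖u t‖ * ‖(z t : ℚ_[p])‖ ≤ (C * (p : ℝ) ^ (-((q t).natDegree : ℤ))) * 1 :=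
          mul_le_mul (hu t) (Padic.norm_int_le_one _) (norm_nonneg _)
            (mul_nonneg hC (rp_pos _).le)
      _ ≤ _ := by
          rw [mul_one]
          exact mul_le_mul_of_nonneg_left (rp_anti hm) hC

/-- the entries of the powers of a matrix close to one -/
theorem good_entry {B : Matrix (Fin d) (Fin d) ℚ_[p]}
    (hB : Le ((p : ℝ) ^ (-((2 : ℕ) : ℤ))) (B - 1)) (R : ℕ) (a b : Fin d) :
    Good p R 1 (fun s => (B ^ s) a b) := by
  set E := B - 1 with hE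
  have hBE : B = E + 1 := by rw [hE, sub_add_cancel]
  refine ⟨Fin (R + 1), inferInstance,
    fun m => (E ^ (m : ℕ)) a b / (((m : ℕ).factorial : ℕ) : ℚ_[p]),
    fun m => descPochhammer ℤ m, fun m => ?_, fun s hs => ?_⟩
  · rw [descPochhammer_natDegree, one_mul, norm_div, div_eq_mul_inv]
    have h6 := fact_norm p (m : ℕ)
    have h7 : ‖(E ^ (m : ℕ)) a b‖ ≤ ((p : ℝ) ^ (-((2 : ℕ) : ℤ))) ^ (m : ℕ) :=
      (hB.pow (rp_pos 2).le m) a b
    have hp0 : (0 : ℝ) < p := by exact_mod_cast hp.out.pos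
    calc ‖(E ^ (m : ℕ)) a b‖ * ‖(((m : ℕ).factorial : ℕ) : ℚ_[p])‖⁻¹
        ≤ ((p : ℝ) ^ (-((2 : ℕ) : ℤ))) ^ (m : ℕ) * (p : ℝ) ^ (m : ℕ) :=
          mul_le_mul h7 h6 (by positivity) (by positivity)
      _ = (p : ℝ) ^ (-((m : ℕ) : ℤ)) := by
          rw [← zpow_natCast (p : ℝ) m, ← zpow_natCast ((p : ℝ) ^ (-((2 : ℕ) : ℤ))) m,
            ← zpow_mul, ← zpow_add₀ hp0.ne']
          congr 1
          push_cast
          ring
  · have h1 : B ^ s = ∑ m ∈ range (s + 1), ((Nat.choose s m : ℕ) : ℚ_[p]) • E ^ m := by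
      rw [hBE, (Commute.one_right E).add_pow]
      refine sum_congr rfl fun m _ => ?_
      rw [one_pow, mul_one, ← nsmul_eq_mul', Nat.cast_smul_eq_nsmul]
    have h2 : (B ^ s) a b = ∑ m ∈ range (R + 1), ((Nat.choose s m : ℕ) : ℚ_[p]) * (E ^ m) a b := by
      rw [h1, Matrix.sum_apply]
      rw [← sum_subset (range_mono (Nat.succ_le_succ hs) : range (s + 1) ⊆ range (R + 1))]
      · refine sum_congr rfl fun m _ => ?_
        rw [Matrix.smul_apply, smul_eq_mul]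
      · intro m _ hm
        rw [mem_range, not_lt] at hm
        rw [Nat.choose_eq_zero_of_lt (by omega), Nat.cast_zero, zero_mul]
    change (B ^ s) a b = _
    rw [h2, ← Fin.sum_univ_eq_sum_range (fun m => ((Nat.choose s m : ℕ) : ℚ_[p]) * (E ^ m) a b)]
    refine sum_congr rfl fun m _ => ?_
    have hf : (((m : ℕ).factorial : ℕ) : ℚ_[p]) ≠ 0 := by exact_mod_cast (m : ℕ).factorial_ne_zero
    rw [descPochhammer_eval_eq_descFactorial, Nat.descFactorial_eq_factorial_mul_choose]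
    push_cast
    field_simp

section

variable {m : ℕ} {e : Fin m → ℕ}

/-- the value of a polynomial in the entries of a family of matrices -/
noncomputable def ev (F : MvPolynomial (Σ s : Fin m, Fin (e s) × Fin (e s)) ℚ_[p])
    (A : ∀ s, Matrix (Fin (e s)) (Fin (e s)) ℚ_[p]) : ℚ_[p] :=
  MvPolynomial.eval (fun v => A v.1 v.2.1 v.2.2) F

theorem bound (F : MvPolynomial (Σ s : Fin m, Fin (e s) × Fin (e s)) ℚ_[p]) :
    ∃ C : ℝ, 0 ≤ C ∧
      (∀ X : ∀ s, Matrix (Fin (e s)) (Fin (e s)) ℚ_[p], (∀ s, Le 1 (X s)) → ‖ev F X‖ ≤ C) ∧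
      (∀ (X Y : ∀ s, Matrix (Fin (e s)) (Fin (e s)) ℚ_[p]) (r : ℝ), 0 ≤ r →
        (∀ s, Le 1 (X s)) → (∀ s, Le 1 (Y s)) → (∀ s, Le r (X s - Y s)) →
        ‖ev F X - ev F Y‖ ≤ C * r) ∧
      (∀ B : ∀ s, Matrix (Fin (e s)) (Fin (e s)) ℚ_[p],
        (∀ s, Le ((p : ℝ) ^ (-((2 : ℕ) : ℤ))) (B s - 1)) → ∀ R,
        Good p R C (fun k => ev F fun s => B s ^ k)) := by
  induction F using MvPolynomial.induction_on with
  | C a =>
    refine ⟨‖a‖, norm_nonneg _, fun X _ => ?_, fun X Y r hr _ _ _ => ?_, fun B _ R => ?_⟩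
    · unfold ev
      rw [MvPolynomial.eval_C]
    · unfold ev
      rw [MvPolynomial.eval_C, MvPolynomial.eval_C, sub_self, norm_zero]
      positivity
    · unfold ev
      simp only [MvPolynomial.eval_C]
      exact Good.const a
  | add F G hF hG =>
    obtain ⟨C1, hC1, h1, h2, h3⟩ := hF
    obtain ⟨C2, hC2, h4, h5, h6⟩ := hG
    have hadd : ∀ X : ∀ s, Matrix (Fin (e s)) (Fin (e s)) ℚ_[p],
        ev (F + G) X = ev F X + ev G X := fun X => by
      unfold ev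
      rw [map_add]
    refine ⟨max C1 C2, le_max_of_le_left hC1, fun X hX => ?_, fun X Y r hr hX hY h => ?_,
      fun B hB R => ?_⟩
    · rw [hadd]
      exact (Padic.nonarchimedean _ _).trans (max_le_max (h1 X hX) (h4 X hX))
    · rw [hadd, hadd]
      have : ev F X + ev G X - (ev F Y + ev G Y) = (ev F X - ev F Y) + (ev G X - ev G Y) := by
        ring
      rw [this]
      refine (Padic.nonarchimedean _ _).trans (max_le ?_ ?_)
      · exact (h2 X Y r hr hX hY h).trans (mul_le_mul_of_nonneg_right (le_max_left _ _) hr)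
      · exact (h5 X Y r hr hX hY h).trans (mul_le_mul_of_nonneg_right (le_max_right _ _) hr)
    · simp only [hadd]
      exact ((h3 B hB R).mono (le_max_left _ _)).add ((h6 B hB R).mono (le_max_right _ _))
  | mul_X F v hF =>
    obtain ⟨C1, hC1, h1, h2, h3⟩ := hF
    have hmul : ∀ X : ∀ s, Matrix (Fin (e s)) (Fin (e s)) ℚ_[p],
        ev (F * MvPolynomial.X v) X = ev F X * X v.1 v.2.1 v.2.2 := fun X => by
      unfold ev
      rw [map_mul, MvPolynomial.eval_X]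
    refine ⟨C1, hC1, fun X hX => ?_, fun X Y r hr hX hY h => ?_, fun B hB R => ?_⟩
    · rw [hmul, norm_mul]
      have := mul_le_mul (h1 X hX) (hX v.1 v.2.1 v.2.2) (norm_nonneg _) hC1
      rwa [mul_one] at this
    · rw [hmul, hmul]
      have : ev F X * X v.1 v.2.1 v.2.2 - ev F Y * Y v.1 v.2.1 v.2.2 =
          ev F X * (X v.1 - Y v.1) v.2.1 v.2.2 + (ev F X - ev F Y) * Y v.1 v.2.1 v.2.2 := by
        rw [Matrix.sub_apply]
        ring
      rw [this]
      refine (Padic.nonarchimedean _ _).trans (max_le ?_ ?_)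
      · rw [norm_mul]
        exact mul_le_mul (h1 X hX) (h v.1 v.2.1 v.2.2) (norm_nonneg _) hC1
      · rw [norm_mul]
        have := mul_le_mul (h2 X Y r hr hX hY h) (hY v.1 v.2.1 v.2.2) (norm_nonneg _)
          (by positivity)
        rwa [mul_one] at this
    · simp only [hmul]
      have := (h3 B hB R).mul hC1 (good_entry (hB v.1) R v.2.1 v.2.2)
      rwa [mul_one] at this

/-- the value at `B` is controlled by the values at the powers `B ^ (N * l)` -/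
theorem ev_approx {F : MvPolynomial (Σ s : Fin m, Fin (e s) × Fin (e s)) ℚ_[p]} {C : ℝ}
    (hC : 0 ≤ C)
    (hF : ∀ B : ∀ s, Matrix (Fin (e s)) (Fin (e s)) ℚ_[p],
        (∀ s, Le ((p : ℝ) ^ (-((2 : ℕ) : ℤ))) (B s - 1)) → ∀ R,
        Good p R C (fun k => ev F fun s => B s ^ k))
    {B : ∀ s, Matrix (Fin (e s)) (Fin (e s)) ℚ_[p]}
    (hB : ∀ s, Le ((p : ℝ) ^ (-((2 : ℕ) : ℤ))) (B s - 1)) {M N : ℕ} (hN : 1 ≤ N) {δ : ℝ}
    (hδ0 : 0 ≤ δ) (hδ : ∀ l ∈ range M, ‖ev F fun s => B s ^ (N * l)‖ ≤ δ) :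
    ‖ev F B‖ ≤ max (C * (p : ℝ) ^ (-(M : ℤ))) (((N * M : ℕ) : ℝ) ^ M * δ) := by
  have h0 : ev F B = ev F fun s => B s ^ 1 := by
    congr 1
    funext s
    rw [pow_one]
  have h1 : ev F B = ((ev F fun s => B s ^ 1) -
      ∑ l ∈ range M, ((wt M N l : ℚ) : ℚ_[p]) * (ev F fun s => B s ^ (N * l))) +
      ∑ l ∈ range M, ((wt M N l : ℚ) : ℚ_[p]) * (ev F fun s => B s ^ (N * l)) := by
    rw [h0]
    ring
  rw [h1]
  refine (Padic.nonarchimedean _ _).trans (max_le_max ?_ ?_)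
  · have h2 := Good.interp hC (hF B hB (max 1 (N * M))) hN (le_max_left _ _) (le_max_right _ _)
    beta_reduce at h2
    exact h2
  · refine norm_sum_le_of _ _ (by positivity) fun l hl => ?_
    rw [norm_mul]
    exact mul_le_mul (wt_norm p hN hl) (hδ l hl) (norm_nonneg _) (by positivity)

end

end Pool.Agent.V1183.SV
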