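import Pool.Agent.V1183.SV.Main

set_option autoImplicit false

/-!
# Polynomial relations at a sparse set of Frobenius elements: coefficients in a finite extension of `ℚ_p`
-/

namespace Pool.Agent.V1183.SV

open Matrix Finset NumberField Topology
open Pool.Agent.Y800 Pool.Agent.Y802.TS

attribute [local instance 10] DivisionRing.toRatAlgebra

section

variable {p : ℕ} [hp : Fact p.Prime] {E : IntermediateField ℚ_[p] (PadicAlgCl p)} {d n : ℕ}

/-- restriction of scalars for matrices -/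
noncomputable def RS (b : Module.Basis (Fin d) ℚ_[p] E) (n : ℕ) :
    Matrix (Fin n) (Fin n) E →+* Matrix (Fin (n * d)) (Fin (n * d)) ℚ_[p] :=
  (Matrix.reindexRingEquiv ℚ_[p] finProdFinEquiv).toRingHom.comp
    ((Matrix.compRingEquiv (Fin n) (Fin d) ℚ_[p]).toRingHom.comp
      (Algebra.leftMulMatrix b).toRingHom.mapMatrix)

theorem RS_apply (b : Module.Basis (Fin d) ℚ_[p] E) (X : Matrix (Fin n) (Fin n) E)
    (u v : Fin (n * d)) : RS b n X u v =
      Algebra.leftMulMatrix b (X (finProdFinEquiv.symm u).1 (finProdFinEquiv.symm v).1)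
        (finProdFinEquiv.symm u).2 (finProdFinEquiv.symm v).2 := rfl

theorem RS_cont [FiniteDimensional ℚ_[p] E] (b : Module.Basis (Fin d) ℚ_[p] E) :
    Continuous (RS b n) := by
  refine continuous_matrix fun u v => ?_
  have h1 : ∀ X : Matrix (Fin n) (Fin n) E, RS b n X u v =
      b.coord (finProdFinEquiv.symm u).2 (X (finProdFinEquiv.symm u).1 (finProdFinEquiv.symm v).1 *
        b (finProdFinEquiv.symm v).2) := by
    intro X
    rw [RS_apply, Algebra.leftMulMatrix_eq_repr_mul]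
    rfl
  simp only [h1]
  refine (LinearMap.continuous_of_finiteDimensional _).comp ?_
  exact (continuous_id.matrix_elem _ _).mul continuous_const

/-- the entries of a matrix are linear in the entries of the restriction of scalars -/
theorem recover (b : Module.Basis (Fin d) ℚ_[p] E) (X : Matrix (Fin n) (Fin n) E) (i j : Fin n) :
    X i j = ∑ j', ∑ i', (algebraMap ℚ_[p] E (b.repr 1 j') * b i') *
      algebraMap ℚ_[p] E (RS b n X (finProdFinEquiv (i, i')) (finProdFinEquiv (j, j'))) := by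
  set x := X i j with hxdef
  have hx : x = ∑ j', ∑ i', (b.repr 1 j' * Algebra.leftMulMatrix b x i' j') • b i' := by
    have h1 : x = x * ∑ j, b.repr 1 j • b j := by rw [b.sum_repr, mul_one]
    conv_lhs => rw [h1, Finset.mul_sum]
    refine Finset.sum_congr rfl fun j _ => ?_
    rw [mul_smul_comm]
    conv_lhs => rw [← b.sum_repr (x * b j), Finset.smul_sum]
    refine Finset.sum_congr rfl fun i _ => ?_
    rw [smul_smul, Algebra.leftMulMatrix_eq_repr_mul]
  conv_lhs => rw [hx]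
  refine Finset.sum_congr rfl fun j' _ => Finset.sum_congr rfl fun i' _ => ?_
  rw [RS_apply, Equiv.symm_apply_apply, Equiv.symm_apply_apply, Algebra.smul_def, map_mul]
  ring

/-- the coordinates of the values of a polynomial over `E` at points over `ℚ_p` -/
theorem exists_coord (b : Module.Basis (Fin d) ℚ_[p] E) {τ : Type} (H : MvPolynomial τ E)
    (k : Fin d) : ∃ G : MvPolynomial τ ℚ_[p], ∀ y : τ → ℚ_[p], MvPolynomial.eval y G =
      b.repr (MvPolynomial.eval (fun t => algebraMap ℚ_[p] E (y t)) H) k := by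
  induction H using MvPolynomial.induction_on' with
  | monomial u a =>
    refine ⟨MvPolynomial.monomial u (b.repr a k), fun y => ?_⟩
    rw [MvPolynomial.eval_monomial, MvPolynomial.eval_monomial]
    have h1 : a * (u.prod fun n e => (algebraMap ℚ_[p] E (y n)) ^ e) =
        (u.prod fun n e => y n ^ e) • a := by
      rw [Algebra.smul_def, map_finsuppProd, mul_comm]
      simp only [map_pow]
    rw [h1, map_smul, Finsupp.smul_apply, smul_eq_mul, mul_comm]
  | add G H hG hH =>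
    obtain ⟨G1, h1⟩ := hG
    obtain ⟨G2, h2⟩ := hH
    refine ⟨G1 + G2, fun y => ?_⟩
    rw [map_add, map_add, map_add, Finsupp.add_apply, h1, h2]

theorem exists_res (b : Module.Basis (Fin d) ℚ_[p] E) {m : ℕ} {e : Fin m → ℕ}
    (F : MvPolynomial (Σ s : Fin m, Fin (e s) × Fin (e s)) E) (k : Fin d) :
    ∃ G : MvPolynomial (Σ s : Fin m, Fin (e s * d) × Fin (e s * d)) ℚ_[p],
      ∀ X : ∀ s, Matrix (Fin (e s)) (Fin (e s)) E,
        ev G (fun s => RS b (e s) (X s)) =
          b.repr (MvPolynomial.eval (fun v => X v.1 v.2.1 v.2.2) F) k := by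
  obtain ⟨G, hG⟩ := exists_coord b (MvPolynomial.bind₁ (fun v : Σ s : Fin m, Fin (e s) × Fin (e s) =>
    ∑ j', ∑ i', MvPolynomial.C (algebraMap ℚ_[p] E (b.repr 1 j') * b i') *
      (MvPolynomial.X ⟨v.1, finProdFinEquiv (v.2.1, i'), finProdFinEquiv (v.2.2, j')⟩ :
        MvPolynomial (Σ s : Fin m, Fin (e s * d) × Fin (e s * d)) E)) F) k
  refine ⟨G, fun X => ?_⟩
  unfold ev
  rw [hG]
  congr 2
  have h1 : ∀ (y : (Σ s : Fin m, Fin (e s * d) × Fin (e s * d)) → E)
      (h : (Σ s : Fin m, Fin (e s) × Fin (e s)) →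
        MvPolynomial (Σ s : Fin m, Fin (e s * d) × Fin (e s * d)) E),
      MvPolynomial.eval y (MvPolynomial.bind₁ h F) =
        MvPolynomial.eval (fun v => MvPolynomial.eval y (h v)) F := by
    intro y h
    exact MvPolynomial.eval₂Hom_bind₁ (RingHom.id E) y h F
  rw [h1]
  refine congrArg (fun w => MvPolynomial.eval w F) (funext fun v => ?_)
  rw [recover b (X v.1) v.2.1 v.2.2]
  simp only [map_sum, map_mul, MvPolynomial.eval_C, MvPolynomial.eval_X]

end

/-- **Polynomial relations at a sparse set of Frobenius elements**, for representations over a finite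
extension of `ℚ_p`. -/
theorem mainE (f : ℕ → ℕ) :
    ∃ (T : ℕ → ℕ) (k L : IntermediateField ℚ (AlgebraicClosure ℚ)),
      (∀ i, (T i).Prime) ∧ (∀ i, f (T i) + T i < T (i + 1)) ∧ IsTower k L T ∧
      ∀ (Γ : Subgroup GQ), IsOpen (Γ : Set GQ) → ∀ (p : ℕ) [Fact p.Prime]
        (E : IntermediateField ℚ_[p] (PadicAlgCl p)), FiniteDimensional ℚ_[p] E →
        ∀ (m : ℕ) (d : Fin m → ℕ) (ρ : ∀ s, Γ →* GL (Fin (d s)) E), (∀ s, Continuous (ρ s)) →
        (∀ s, ∃ S : Finset ℕ, ∀ q : ℕ, q.Prime → q ∉ S → ∀ P : Ideal ZBar, P.IsMaximal →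
          (q : ZBar) ∈ P → ∀ τ : GQ, ∀ h : τ ∈ Γ, InInertia P τ → ρ s ⟨τ, h⟩ = 1) →
        ∃ U : Subgroup GQ, IsOpen (U : Set GQ) ∧ U ≤ Γ ∧
          ∀ F : MvPolynomial (Σ s : Fin m, Fin (d s) × Fin (d s)) E,
          (∃ i0, ∀ i ≥ i0, ∀ P : Ideal ZBar, P.IsMaximal → (T i : ZBar) ∈ P →
            ∀ σ : GQ, ∀ h : σ ∈ Γ, IsGeomFrob (T i) P σ → ∃ a : ℕ, a ≠ 0 ∧ ∀ k : ℕ, 0 < k →
              MvPolynomial.eval (fun v =>
                (ρ v.1 (⟨σ, h⟩ ^ (a * k)) : Matrix (Fin (d v.1)) (Fin (d v.1)) E) v.2.1 v.2.2) F = 0) →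
          ∀ γ ∈ U, ∀ h : γ ∈ Γ, MvPolynomial.eval (fun v =>
            (ρ v.1 ⟨γ, h⟩ : Matrix (Fin (d v.1)) (Fin (d v.1)) E) v.2.1 v.2.2) F = 0 := by
  obtain ⟨T, k, L, hT1, hT2, htow, hrep⟩ := main f
  refine ⟨T, k, L, hT1, hT2, htow, ?_⟩
  intro Γ hΓ p hp E hE m d ρ hρ hS
  let b := Module.finBasis ℚ_[p] E
  let Fm : ∀ s, GL (Fin (d s)) E →* GL (Fin (d s * Module.finrank ℚ_[p] E)) ℚ_[p] :=
    fun s => Units.map (RS b (d s)).toMonoidHom
  have hFc : ∀ s, Continuous (Fm s) := by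
    intro s
    rw [Units.continuous_iff]
    constructor
    · exact (RS_cont b).comp Units.continuous_val
    · have h2 : Continuous fun γ : GL (Fin (d s)) E => (γ⁻¹ : GL (Fin (d s)) E) := continuous_inv
      exact (RS_cont b).comp (Units.continuous_val.comp h2)
  obtain ⟨U, hU, hUΓ, h1⟩ := hrep Γ hΓ p m (fun s => d s * Module.finrank ℚ_[p] E)
    (fun s => (Fm s).comp (ρ s)) (fun s => (hFc s).comp (hρ s)) (fun s => by
      obtain ⟨S, hS⟩ := hS s
      refine ⟨S, fun q hq hqS P hP hqP τ h hτ => ?_⟩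
      rw [MonoidHom.comp_apply, hS q hq hqS P hP hqP τ h hτ, map_one])
  refine ⟨U, hU, hUΓ, ?_⟩
  intro F hF γ hγ h
  have key : ∀ c : Fin (Module.finrank ℚ_[p] E), b.repr (MvPolynomial.eval (fun v =>
      (ρ v.1 ⟨γ, h⟩ : Matrix (Fin (d v.1)) (Fin (d v.1)) E) v.2.1 v.2.2) F) c = 0 := by
    intro c
    obtain ⟨G, hG⟩ := exists_res b F c
    have h2 := h1 G (by
      obtain ⟨i0, hi0⟩ := hF
      refine ⟨i0, fun i hi P hP hTP σ hσ hσP => ?_⟩
      obtain ⟨a, ha, h3⟩ := hi0 i hi P hP hTP σ hσ hσP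
      refine ⟨a, ha, fun l hl => ?_⟩
      have h4 := hG (fun s => (ρ s (⟨σ, hσ⟩ ^ (a * l)) : Matrix (Fin (d s)) (Fin (d s)) E))
      rw [h3 l hl, map_zero, Finsupp.zero_apply] at h4
      exact h4) γ hγ h
    have h4 := hG (fun s => (ρ s ⟨γ, h⟩ : Matrix (Fin (d s)) (Fin (d s)) E))
    rw [← h4]
    exact h2
  have h5 : b.repr (MvPolynomial.eval (fun v =>
      (ρ v.1 ⟨γ, h⟩ : Matrix (Fin (d v.1)) (Fin (d v.1)) E) v.2.1 v.2.2) F) = 0 := by
    ext c
    rw [key c, Finsupp.zero_apply]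
  exact (LinearEquiv.map_eq_zero_iff _).1 h5

end Pool.Agent.V1183.SV
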