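import Mathlib

set_option autoImplicit false

/-!
# Interpolation at the multiples of `N`, with integrality
-/

namespace Pool.Agent.V1183.SV

open Polynomial Finset

/-- the nodes `0, N, …, (M-1) N` -/
noncomputable def node (N : ℕ) (l : ℕ) : ℚ := ((N * l : ℕ) : ℚ)

/-- the Lagrange weights for the value at `1` -/
noncomputable def wt (M N : ℕ) (l : ℕ) : ℚ := (Lagrange.basis (range M) (node N) l).eval 1

theorem node_inj {N : ℕ} (hN : 1 ≤ N) (s : Set ℕ) : Set.InjOn (node N) s := by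
  intro a _ b _ h
  unfold node at h
  have h1 : N * a = N * b := by exact_mod_cast h
  exact Nat.eq_of_mul_eq_mul_left hN h1

/-- Interpolation of integer polynomials is exact up to an integer, and exact in low degree. -/
theorem interp {M N : ℕ} (hN : 1 ≤ N) (q : ℤ[X]) :
    ∃ z : ℤ, ((q.eval 1 : ℤ) : ℚ) -
      ∑ l ∈ range M, wt M N l * ((q.eval ((N * l : ℕ) : ℤ) : ℤ) : ℚ) = z ∧
      (q.natDegree < M → z = 0) := by
  set ω : ℤ[X] := ∏ l ∈ range M, (X - C ((N * l : ℕ) : ℤ)) with hω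
  have hmon : ω.Monic := monic_prod_of_monic _ _ fun l _ => monic_X_sub_C _
  have hdeg : ω.natDegree = M := by
    rw [hω, natDegree_prod_of_monic _ _ fun l _ => monic_X_sub_C _,
      sum_congr rfl fun l _ => natDegree_X_sub_C _]
    simp
  have hroot : ∀ l ∈ range M, ω.eval ((N * l : ℕ) : ℤ) = 0 := by
    intro l hl
    rw [hω, eval_prod]
    exact prod_eq_zero hl (by simp)
  set r := q %ₘ ω with hr
  have hq : r + ω * (q /ₘ ω) = q := modByMonic_add_div q ω
  have hval : ∀ l ∈ range M, q.eval ((N * l : ℕ) : ℤ) = r.eval ((N * l : ℕ) : ℤ) := by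
    intro l hl
    conv_lhs => rw [← hq]
    rw [eval_add, eval_mul, hroot l hl, zero_mul, add_zero]
  -- Lagrange interpolation of `r`
  have hrdeg : (r.map (Int.castRingHom ℚ)).degree < (range M).card := by
    rw [card_range]
    rcases Nat.eq_zero_or_pos M with h0 | h0
    · have h1 : ω = 1 := by rw [hω, h0]; simp
      have h2 : r = 0 := by rw [hr, h1, modByMonic_one]
      rw [h2, Polynomial.map_zero, degree_zero]
      exact WithBot.bot_lt_coe _
    · refine (degree_map_le).trans_lt ?_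
      have h1 : r.degree < ω.degree := degree_modByMonic_lt q hmon
      rwa [degree_eq_natDegree hmon.ne_zero, hdeg] at h1
  have hev : ∀ a : ℤ, (r.map (Int.castRingHom ℚ)).eval (a : ℚ) = ((r.eval a : ℤ) : ℚ) := by
    intro a
    rw [eval_intCast_map]
    rfl
  have hlag := Lagrange.eq_interpolate (node_inj hN (↑(range M) : Set ℕ)) hrdeg
  have h1 := congrArg (eval (1 : ℚ)) hlag
  rw [Lagrange.interpolate_apply, eval_finset_sum] at h1
  have h2 : (r.map (Int.castRingHom ℚ)).eval (1 : ℚ) = ((r.eval 1 : ℤ) : ℚ) := by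
    have := hev 1
    simpa using this
  rw [h2] at h1
  have h3 : ∑ l ∈ range M, wt M N l * ((q.eval ((N * l : ℕ) : ℤ) : ℤ) : ℚ) =
      ((r.eval 1 : ℤ) : ℚ) := by
    rw [h1]
    refine sum_congr rfl fun l hl => ?_
    rw [eval_mul, eval_C, hval l hl]
    have h4 : node N l = (((N * l : ℕ) : ℤ) : ℚ) := by unfold node; push_cast; ring
    rw [h4, hev, mul_comm]
    rfl
  refine ⟨ω.eval 1 * (q /ₘ ω).eval 1, ?_, fun hlt => ?_⟩
  · rw [h3]
    have h4 : q.eval 1 = r.eval 1 + ω.eval 1 * (q /ₘ ω).eval 1 := by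
      conv_lhs => rw [← hq]
      rw [eval_add, eval_mul]
    rw [h4]
    push_cast
    ring
  · have h4 : q /ₘ ω = 0 := by
      rw [divByMonic_eq_zero_iff hmon]
      apply degree_lt_degree
      rwa [hdeg]
    rw [h4, eval_zero, mul_zero]

/-- interpolation of the binomial coefficients -/
theorem interp_choose {M N : ℕ} (hN : 1 ≤ N) (m : ℕ) :
    ∃ z : ℤ, ((Nat.choose 1 m : ℕ) : ℚ) - ∑ l ∈ range M, wt M N l * ((Nat.choose (N * l) m : ℕ) : ℚ) =
      z / (m.factorial : ℚ) ∧ (m < M → z = 0) := by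
  obtain ⟨z, hz, hz0⟩ := interp (M := M) hN (descPochhammer ℤ m)
  have hf : ((m.factorial : ℕ) : ℚ) ≠ 0 := by exact_mod_cast m.factorial_ne_zero
  have he : ∀ s : ℕ, (((descPochhammer ℤ m).eval ((s : ℕ) : ℤ) : ℤ) : ℚ) =
      (m.factorial : ℚ) * ((Nat.choose s m : ℕ) : ℚ) := by
    intro s
    rw [descPochhammer_eval_eq_descFactorial, Nat.descFactorial_eq_factorial_mul_choose]
    push_cast
    ring
  refine ⟨z, ?_, fun h => hz0 (by rwa [descPochhammer_natDegree])⟩
  rw [eq_div_iff hf, ← hz]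
  have h1 := he 1
  rw [Nat.cast_one] at h1
  rw [h1, sub_mul, sum_mul]
  congr 1
  · ring
  · refine sum_congr rfl fun l _ => ?_
    rw [he]
    ring

/-- size of the weights at a prime `p` -/
theorem wt_norm (p : ℕ) [hp : Fact p.Prime] {M N : ℕ} (hN : 1 ≤ N) {l : ℕ} (hl : l ∈ range M) :
    ‖((wt M N l : ℚ) : ℚ_[p])‖ ≤ ((N * M : ℕ) : ℝ) ^ M := by
  have hM : 1 ≤ M := by
    have := mem_range.1 hl
    omega
  have hb : (1 : ℝ) ≤ ((N * M : ℕ) : ℝ) := by
    exact_mod_cast Nat.mul_pos hN hM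
  have hwt : wt M N l = ∏ j ∈ (range M).erase l, ((1 - node N j) / (node N l - node N j)) := by
    unfold wt Lagrange.basis
    rw [eval_prod]
    refine prod_congr rfl fun j _ => ?_
    unfold Lagrange.basisDivisor
    rw [eval_mul, eval_C, eval_sub, eval_X, eval_C]
    rw [div_eq_inv_mul]
  rw [hwt]
  push_cast
  rw [norm_prod]
  have hterm : ∀ j ∈ (range M).erase l, ‖((1 : ℚ_[p]) - (node N j : ℚ_[p])) /
      ((node N l : ℚ_[p]) - (node N j : ℚ_[p]))‖ ≤ ((N * M : ℕ) : ℝ) := by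
    intro j hj
    have hjl : j ≠ l := ne_of_mem_erase hj
    have hjM := mem_range.1 (mem_of_mem_erase hj)
    have hlM := mem_range.1 hl
    rw [norm_div]
    have h1 : ‖(1 : ℚ_[p]) - (node N j : ℚ_[p])‖ ≤ 1 := by
      have : (1 : ℚ_[p]) - (node N j : ℚ_[p]) = (((1 - (N * j : ℕ) : ℤ)) : ℚ_[p]) := by
        unfold node; push_cast; ring
      rw [this]
      exact Padic.norm_int_le_one _
    have h2 : (node N l : ℚ_[p]) - (node N j : ℚ_[p]) =
        (((N : ℤ) * ((l : ℤ) - (j : ℤ)) : ℤ) : ℚ_[p]) := by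
      unfold node; push_cast; ring
    have hz : (N : ℤ) * ((l : ℤ) - (j : ℤ)) ≠ 0 := by
      refine mul_ne_zero (by exact_mod_cast (by omega : N ≠ 0)) ?_
      omega
    have h3 : (1 : ℝ) / ((N * M : ℕ) : ℝ) ≤
        ‖(((N : ℤ) * ((l : ℤ) - (j : ℤ)) : ℤ) : ℚ_[p])‖ := by
      obtain ⟨z, hzd⟩ : ∃ z, z = (N : ℤ) * ((l : ℤ) - (j : ℤ)) := ⟨_, rfl⟩
      rw [← hzd] at hz ⊢
      have hnz : z.natAbs ≠ 0 := Int.natAbs_ne_zero.2 hz
      have hle : z.natAbs ≤ N * M := by
        rw [hzd, Int.natAbs_mul, Int.natAbs_natCast]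
        apply Nat.mul_le_mul_left
        omega
      have h4 : ‖(z : ℚ_[p])‖ = (p : ℝ) ^ (-(padicValNat p z.natAbs : ℤ)) := by
        have h5 : (z : ℚ_[p]) ≠ 0 := by exact_mod_cast hz
        rw [Padic.norm_eq_zpow_neg_valuation h5, Padic.valuation_intCast]
        rfl
      rw [h4, zpow_neg, zpow_natCast, one_div]
      apply inv_anti₀ (by have := hp.out.pos; positivity)
      have h6 : p ^ padicValNat p z.natAbs ≤ z.natAbs :=
        Nat.le_of_dvd (Nat.pos_of_ne_zero hnz) pow_padicValNat_dvd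
      exact_mod_cast h6.trans hle
    rw [h2]
    have hpos : (0 : ℝ) < ((N * M : ℕ) : ℝ) := by linarith
    have h4 : (0 : ℝ) < ‖(((N : ℤ) * ((l : ℤ) - (j : ℤ)) : ℤ) : ℚ_[p])‖ :=
      lt_of_lt_of_le (by positivity) h3
    rw [div_le_iff₀ h4]
    rw [div_le_iff₀ hpos] at h3
    linarith
  calc ∏ j ∈ (range M).erase l, ‖((1 : ℚ_[p]) - (node N j : ℚ_[p])) /
      ((node N l : ℚ_[p]) - (node N j : ℚ_[p]))‖
      ≤ ∏ _j ∈ (range M).erase l, ((N * M : ℕ) : ℝ) :=
        prod_le_prod (fun _ _ => norm_nonneg _) hterm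
    _ = ((N * M : ℕ) : ℝ) ^ ((range M).erase l).card := by rw [prod_const]
    _ ≤ ((N * M : ℕ) : ℝ) ^ M := by
        apply pow_le_pow_right₀ hb
        refine (card_le_card (erase_subset _ _)).trans ?_
        rw [card_range]
    _ = _ := by push_cast; rfl

/-- the factorials are not too divisible by `p` -/
theorem fact_norm (p : ℕ) [hp : Fact p.Prime] (m : ℕ) :
    ‖((m.factorial : ℕ) : ℚ_[p])‖⁻¹ ≤ (p : ℝ) ^ m := by
  have h0 : ((m.factorial : ℕ) : ℚ_[p]) ≠ 0 := by exact_mod_cast m.factorial_ne_zero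
  rw [Padic.norm_eq_zpow_neg_valuation h0, Padic.valuation_natCast, zpow_neg, inv_inv, zpow_natCast]
  apply pow_le_pow_right₀
  · exact_mod_cast hp.out.one_le
  · have h1 := sub_one_mul_padicValNat_factorial (p := p) m
    have h2 : 1 ≤ p - 1 := by have := hp.out.two_le; omega
    calc padicValNat p m.factorial ≤ (p - 1) * padicValNat p m.factorial :=
          Nat.le_mul_of_pos_left _ h2
      _ ≤ m := by rw [h1]; exact Nat.sub_le _ _

end Pool.Agent.V1183.SV
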