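import Pool.Agent.Y802.TS.Main
import Pool.Agent.V1183.SV.Approx

set_option autoImplicit false

/-!
# Polynomial relations at a sparse set of Frobenius elements
-/

namespace Pool.Agent.V1183.SV

open Matrix IsLocalRing Finset NumberField Topology
open Pool.Agent.Y800 Pool.Agent.Y802.TS

attribute [local instance 10] DivisionRing.toRatAlgebra

/-- the congruence subgroups of one representation -/
theorem exists_K1 (p : ℕ) [Fact p.Prime] (d : ℕ) {Γ : Subgroup GQ} (hΓ : IsOpen (Γ : Set GQ))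
    (ρ : Γ →* GL (Fin d) ℚ_[p]) (hρ : Continuous ρ)
    (hS : ∃ S : Finset ℕ, ∀ q : ℕ, q.Prime → q ∉ S → ∀ P : Ideal ZBar, P.IsMaximal →
      (q : ZBar) ∈ P → ∀ τ : GQ, ∀ h : τ ∈ Γ, InInertia P τ → ρ ⟨τ, h⟩ = 1) :
    ∃ K : ℕ → Subgroup GQ, (∀ i, IsOpen (K i : Set GQ)) ∧ (∀ i j, i ≤ j → K j ≤ K i) ∧
      (∀ i, K i ≤ Γ) ∧
      (∀ i γ, γ ∈ K i → ∀ h : γ ∈ Γ, Le ((p : ℝ) ^ (-(i : ℤ)))
        ((ρ ⟨γ, h⟩ : Matrix (Fin d) (Fin d) ℚ_[p]) - 1)) ∧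
      ∃ j0, ∀ j ≥ j0, ∀ N ≥ 1, Hj j N ≤ K (j * N) := by
  obtain ⟨S, hS⟩ := hS
  obtain ⟨Γ', ρ', hΓ', hΓ'Γ, hρ', hopen1⟩ := exists_integral p d hΓ ρ hρ
  have htriv : ∀ (γ : GQ) (h : γ ∈ Γ') (h' : γ ∈ Γ), ρ ⟨γ, h'⟩ = 1 ↔ ρ' ⟨γ, h⟩ = 1 := by
    intro γ h h'
    rw [← hρ' γ h h']
    exact map_eq_one_iff _ (inc_inj p d)
  obtain ⟨S', hS'⟩ := almost_unr Γ' hΓ'
  have hunr1 : UnrOut ρ' (S ∪ S') := by
    intro q hq hqS P hP hqP τ hτ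
    rw [Finset.mem_union, not_or] at hqS
    have h1 := hS' q hq hqS.2 P hP hqP τ hτ
    exact ⟨h1, (htriv τ h1 (hΓ'Γ h1)).1 (hS q hq hqS.1 P hP hqP τ (hΓ'Γ h1) hτ)⟩
  obtain ⟨j2, hj2⟩ := star ρ' hΓ' (fun i => maximalIdeal ℤ_[p] ^ i) (fun i => (card_quot p i).1)
    (grow_padic p d) hopen1 _ hunr1
  refine ⟨fun i => Kj ρ' (maximalIdeal ℤ_[p] ^ i), hopen1,
    fun i j hij => Kj_mono ρ' (Ideal.pow_le_pow_right hij), ?_, ?_, j2, hj2⟩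
  · intro i γ hγ
    obtain ⟨h, -⟩ := (mem_Kj ρ').1 hγ
    exact hΓ'Γ h
  · intro i γ hγ h a b
    obtain ⟨h1, h2⟩ := (mem_Kj ρ').1 hγ
    have h3 := (mem_max_pow p _ i).1 (h2 a b)
    have h4 : ((ρ ⟨γ, h⟩ : Matrix (Fin d) (Fin d) ℚ_[p]) - 1) a b =
        ((((ρ' ⟨γ, h1⟩ : Matrix (Fin d) (Fin d) ℤ_[p]) - 1) a b : ℤ_[p]) : ℚ_[p]) := by
      rw [← hρ' γ h1 h, Matrix.sub_apply, Matrix.sub_apply, inc_apply, PadicInt.coe_sub,
        Matrix.one_apply, Matrix.one_apply]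
      congr 1
      split_ifs <;> simp
    rw [h4]
    exact h3

/-- the congruence subgroups of a finite family -/
theorem exists_K (p : ℕ) [Fact p.Prime] {m : ℕ} (d : Fin m → ℕ) {Γ : Subgroup GQ}
    (hΓ : IsOpen (Γ : Set GQ)) (ρ : ∀ s, Γ →* GL (Fin (d s)) ℚ_[p]) (hρ : ∀ s, Continuous (ρ s))
    (hS : ∀ s, ∃ S : Finset ℕ, ∀ q : ℕ, q.Prime → q ∉ S → ∀ P : Ideal ZBar, P.IsMaximal →
      (q : ZBar) ∈ P → ∀ τ : GQ, ∀ h : τ ∈ Γ, InInertia P τ → ρ s ⟨τ, h⟩ = 1) :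
    ∃ K : ℕ → Subgroup GQ, (∀ i, IsOpen (K i : Set GQ)) ∧ (∀ i j, i ≤ j → K j ≤ K i) ∧
      (∀ i, K i ≤ Γ) ∧
      (∀ i γ, γ ∈ K i → ∀ h : γ ∈ Γ, ∀ s, Le ((p : ℝ) ^ (-(i : ℤ)))
        ((ρ s ⟨γ, h⟩ : Matrix (Fin (d s)) (Fin (d s)) ℚ_[p]) - 1)) ∧
      ∃ j0, ∀ j ≥ j0, ∀ N ≥ 1, Hj j N ≤ K (j * N) := by
  obtain ⟨L, l1, l2, l3, -, j1, l5⟩ := exists_K1 p 1 hΓ (1 : Γ →* GL (Fin 1) ℚ_[p])
    continuous_const ⟨∅, fun _ _ _ _ _ _ _ _ _ => rfl⟩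
  choose K h1 h2 h3 h4 j0 h5 using fun s => exists_K1 p (d s) hΓ (ρ s) (hρ s) (hS s)
  refine ⟨fun i => L i ⊓ ⨅ s, K s i, fun i => ?_, fun i j hij => ?_, fun i => ?_, ?_,
    max j1 (univ.sup j0), fun j hj N hN => ?_⟩
  · rw [Subgroup.coe_inf, Subgroup.coe_iInf]
    exact (l1 i).inter (isOpen_iInter_of_finite fun s => h1 s i)
  · exact inf_le_inf (l2 i j hij) (iInf_mono fun s => h2 s i j hij)
  · exact inf_le_left.trans (l3 i)
  · intro i γ hγ h s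
    exact h4 s i γ ((Subgroup.mem_iInf.1 (Subgroup.mem_inf.1 hγ).2) s) h
  · exact le_inf (l5 j ((le_max_left _ _).trans hj) N hN) (le_iInf fun s =>
      h5 s j ((Finset.le_sup (f := j0) (mem_univ s)).trans ((le_max_right _ _).trans hj)) N hN)

/-- the `p`-th power of a matrix close to one -/
theorem pow_p_near {p : ℕ} [hp : Fact p.Prime] {d : ℕ} {i : ℕ} (hi : 1 ≤ i)
    {B : Matrix (Fin d) (Fin d) ℚ_[p]} (hB : Le ((p : ℝ) ^ (-(i : ℤ))) (B - 1)) :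
    Le ((p : ℝ) ^ (-((i + 1 : ℕ) : ℤ))) (B ^ p - 1) := by
  have hp0 : (0 : ℝ) < p := by exact_mod_cast hp.out.pos
  have hS : Le ((p : ℝ) ^ (-((1 : ℕ) : ℤ))) (∑ k ∈ range p, B ^ k) := by
    have h1 : ∑ k ∈ range p, B ^ k =
        ∑ k ∈ range p, (B ^ k - 1) + (p : ℚ_[p]) • (1 : Matrix (Fin d) (Fin d) ℚ_[p]) := by
      rw [sum_sub_distrib, sum_const, card_range, Nat.cast_smul_eq_nsmul, sub_add_cancel]
    rw [h1]
    refine Le.add ?_ ?_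
    · intro a b
      rw [Matrix.sum_apply]
      refine norm_sum_le_of _ _ (rp_pos _).le fun k _ => ?_
      have h2 := pow_near (rp_pos (p := p) i).le (le_one_of_near hB) le_one hB k
      rw [_root_.one_pow] at h2
      exact (h2 a b).trans (rp_anti hi)
    · intro a b
      rw [Matrix.smul_apply, smul_eq_mul, norm_mul, Padic.norm_p]
      have h3 : ‖(1 : Matrix (Fin d) (Fin d) ℚ_[p]) a b‖ ≤ 1 := le_one a b
      calc (p : ℝ)⁻¹ * ‖(1 : Matrix (Fin d) (Fin d) ℚ_[p]) a b‖ ≤ (p : ℝ)⁻¹ * 1 :=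
            mul_le_mul_of_nonneg_left h3 (by positivity)
        _ = (p : ℝ) ^ (-((1 : ℕ) : ℤ)) := by rw [mul_one, Nat.cast_one, _root_.zpow_neg_one]
  rw [← geom_sum_mul]
  have h3 := hS.mul (rp_pos (p := p) 1).le (rp_pos (p := p) i).le hB
  rw [← zpow_add₀ hp0.ne'] at h3
  refine h3.mono (le_of_eq ?_)
  congr 1
  push_cast
  ring

theorem pow_pow_near {p : ℕ} [hp : Fact p.Prime] {d : ℕ} {B : Matrix (Fin d) (Fin d) ℚ_[p]}
    (hB : Le ((p : ℝ) ^ (-((2 : ℕ) : ℤ))) (B - 1)) (n : ℕ) :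
    Le ((p : ℝ) ^ (-((2 + n : ℕ) : ℤ))) (B ^ p ^ n - 1) := by
  induction n with
  | zero => rwa [pow_zero, pow_one]
  | succ n ih =>
    rw [pow_succ, pow_mul]
    exact pow_p_near (i := 2 + n) (by omega) ih

/-- the precision -/
theorem precision (p : ℕ) [hp : Fact p.Prime] {M N j : ℕ} (hN : 1 ≤ N)
    (hj : M * M + 2 * M ≤ j) :
    ((N * M : ℕ) : ℝ) ^ M * (p : ℝ) ^ (-((j * N : ℕ) : ℤ)) ≤ (p : ℝ) ^ (-(M : ℤ)) := by
  have hp2 : 2 ≤ p := hp.out.two_le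
  have hp0 : (0 : ℝ) < p := by exact_mod_cast hp.out.pos
  have h1 : (N * M) ^ M ≤ p ^ ((N + M) * M) := by
    rw [pow_mul]
    apply Nat.pow_le_pow_left
    rw [pow_add]
    exact Nat.mul_le_mul (Nat.lt_pow_self (by omega)).le (Nat.lt_pow_self (by omega)).le
  have h2 : (N + M) * M + M ≤ j * N := by
    calc (N + M) * M + M = N * M + (M * M + M) * 1 := by ring
      _ ≤ N * M + (M * M + M) * N := Nat.add_le_add_left (Nat.mul_le_mul_left _ hN) _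
      _ = (M * M + 2 * M) * N := by ring
      _ ≤ j * N := Nat.mul_le_mul_right _ hj
  have h3 : ((N * M : ℕ) : ℝ) ^ M ≤ (p : ℝ) ^ (((N + M) * M : ℕ) : ℤ) := by
    rw [zpow_natCast]
    exact_mod_cast h1
  calc ((N * M : ℕ) : ℝ) ^ M * (p : ℝ) ^ (-((j * N : ℕ) : ℤ))
      ≤ (p : ℝ) ^ (((N + M) * M : ℕ) : ℤ) * (p : ℝ) ^ (-((j * N : ℕ) : ℤ)) :=
        mul_le_mul_of_nonneg_right h3 (by positivity)
    _ = (p : ℝ) ^ ((((N + M) * M : ℕ) : ℤ) + (-((j * N : ℕ) : ℤ))) := by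
        rw [zpow_add₀ hp0.ne']
    _ ≤ _ := by
        apply zpow_le_zpow_right₀ (by exact_mod_cast hp.out.one_le)
        have h4 : (((N + M) * M + M : ℕ) : ℤ) ≤ ((j * N : ℕ) : ℤ) := by exact_mod_cast h2
        push_cast at h4 ⊢
        linarith

theorem zero_of_le (p : ℕ) [hp : Fact p.Prime] {z : ℚ_[p]} {C : ℝ}
    (h : ∀ M : ℕ, ‖z‖ ≤ C * (p : ℝ) ^ (-(M : ℤ))) : z = 0 := by
  have hp1 : (1 : ℝ) < p := by exact_mod_cast hp.out.one_lt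
  have h1 : Filter.Tendsto (fun M : ℕ => C * (p : ℝ) ^ (-(M : ℤ))) Filter.atTop (𝓝 (C * 0)) := by
    apply Filter.Tendsto.const_mul
    have h2 : (fun M : ℕ => (p : ℝ) ^ (-(M : ℤ))) = fun M : ℕ => ((p : ℝ)⁻¹) ^ M := by
      funext M
      rw [_root_.zpow_neg, _root_.zpow_natCast, inv_pow]
    rw [h2]
    exact tendsto_pow_atTop_nhds_zero_of_lt_one (by positivity) (inv_lt_one_of_one_lt₀ hp1)
  rw [mul_zero] at h1
  have h2 : ‖z‖ ≤ 0 := ge_of_tendsto' h1 h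
  exact norm_le_zero_iff.1 h2

/-- the family of the matrices of an element -/
noncomputable def mat {p : ℕ} [Fact p.Prime] {m : ℕ} {d : Fin m → ℕ} {Γ : Subgroup GQ}
    (ρ : ∀ s, Γ →* GL (Fin (d s)) ℚ_[p]) (γ : Γ) (s : Fin m) :
    Matrix (Fin (d s)) (Fin (d s)) ℚ_[p] := ρ s γ

/-- **The main theorem** for given sequences. -/
theorem virtual (p : ℕ) [hp : Fact p.Prime] {m : ℕ} (d : Fin m → ℕ)
    {Γ : Subgroup GQ}
    (hΓ : IsOpen (Γ : Set GQ)) (ρ : ∀ s, Γ →* GL (Fin (d s)) ℚ_[p]) (hρ : ∀ s, Continuous (ρ s))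
    (hS : ∀ s, ∃ S : Finset ℕ, ∀ q : ℕ, q.Prime → q ∉ S → ∀ P : Ideal ZBar, P.IsMaximal →
      (q : ZBar) ∈ P → ∀ τ : GQ, ∀ h : τ ∈ Γ, InInertia P τ → ρ s ⟨τ, h⟩ = 1)
    (g : ℕ → GQ) (hg : ∀ U : Subgroup GQ, IsOpen (U : Set GQ) → ∀ (γ : GQ) (j0 : ℕ),
      ∃ j, j0 ≤ j ∧ γ⁻¹ * g j ∈ U)
    (N : ℕ → ℕ) (hN : ∀ j, 1 ≤ N j) (x : ℕ → GQ)
    (hx : ∀ j, x j * (g j ^ N j)⁻¹ ∈ Hj j (N j)) :
    ∃ U : Subgroup GQ, IsOpen (U : Set GQ) ∧ U ≤ Γ ∧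
      ∀ F : MvPolynomial (Σ s : Fin m, Fin (d s) × Fin (d s)) ℚ_[p],
      (∃ j1, ∀ j ≥ j1, ∀ h : x j ∈ Γ, ∃ a : ℕ, a ≠ 0 ∧ ∀ k : ℕ, 0 < k →
        ev F (mat ρ (⟨x j, h⟩ ^ (a * k))) = 0) →
      ∀ γ ∈ U, ∀ h : γ ∈ Γ, ev F (mat ρ ⟨γ, h⟩) = 0 := by
  obtain ⟨K, hopen, hmono, hKΓ, hK, j0, hstar⟩ := exists_K p d hΓ ρ hρ hS
  refine ⟨K 2, hopen 2, hKΓ 2, ?_⟩
  rintro F ⟨j1, hfrob⟩ γ hγ hγΓ
  obtain ⟨C, hC0, -, hnear, hgood⟩ := bound (p := p) F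
  have hp1 : (1 : ℝ) ≤ p := by exact_mod_cast hp.out.one_le
  apply zero_of_le p (C := C)
  intro M
  obtain ⟨j, hj, hgj⟩ := hg _ (hopen (M + 2)) γ (max (max j0 j1) (M * M + 2 * M + 2))
  have hjj0 : j0 ≤ j := (le_max_left _ _).trans ((le_max_left _ _).trans hj)
  have hjj1 : j1 ≤ j := (le_max_right _ _).trans ((le_max_left _ _).trans hj)
  have hjM : M * M + 2 * M + 2 ≤ j := (le_max_right _ _).trans hj
  have hgK : g j ∈ K 2 := by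
    have h1 := hmono _ _ (by omega : 2 ≤ M + 2) hgj
    have h2 := (K 2).mul_mem hγ h1
    rwa [mul_inv_cancel_left] at h2
  have hNj := hN j
  have hjN : 2 ≤ j * N j := by
    calc 2 ≤ j := by omega
      _ ≤ j * N j := Nat.le_mul_of_pos_right _ hNj
  have hxg : x j * (g j ^ N j)⁻¹ ∈ K (j * N j) := hstar j hjj0 _ hNj (hx j)
  have hxK : x j ∈ K 2 := by
    have h1 := (K 2).mul_mem (hmono _ _ hjN hxg) ((K 2).pow_mem hgK (N j))
    rwa [inv_mul_cancel_right] at h1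
  have hgΓ : g j ∈ Γ := hKΓ _ hgK
  have hxΓ : x j ∈ Γ := hKΓ _ hxK
  have hyΓ : x j * (g j ^ N j)⁻¹ ∈ Γ := hKΓ _ hxg
  -- abbreviations for the matrices
  obtain ⟨X, hX⟩ : ∃ X : ∀ s, Matrix (Fin (d s)) (Fin (d s)) ℚ_[p],
      ∀ s, X s = (ρ s ⟨x j, hxΓ⟩ : Matrix (Fin (d s)) (Fin (d s)) ℚ_[p]) := ⟨_, fun _ => rfl⟩
  obtain ⟨G, hG⟩ : ∃ G : ∀ s, Matrix (Fin (d s)) (Fin (d s)) ℚ_[p],
      ∀ s, G s = (ρ s ⟨g j, hgΓ⟩ : Matrix (Fin (d s)) (Fin (d s)) ℚ_[p]) := ⟨_, fun _ => rfl⟩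
  obtain ⟨B, hB⟩ : ∃ B : ∀ s, Matrix (Fin (d s)) (Fin (d s)) ℚ_[p],
      ∀ s, B s = (ρ s ⟨γ, hγΓ⟩ : Matrix (Fin (d s)) (Fin (d s)) ℚ_[p]) := ⟨_, fun _ => rfl⟩
  have hX2 : ∀ s, Le ((p : ℝ) ^ (-((2 : ℕ) : ℤ))) (X s - 1) := fun s => by
    rw [hX]; exact hK 2 _ hxK hxΓ s
  have hG2 : ∀ s, Le ((p : ℝ) ^ (-((2 : ℕ) : ℤ))) (G s - 1) := fun s => by
    rw [hG]; exact hK 2 _ hgK hgΓ s
  have hB2 : ∀ s, Le ((p : ℝ) ^ (-((2 : ℕ) : ℤ))) (B s - 1) := fun s => by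
    rw [hB]; exact hK 2 _ hγ hγΓ s
  -- the Frobenius element
  obtain ⟨a, ha, hxa⟩ := hfrob j hjj1 hxΓ
  have hXa : ∀ k, 0 < k → ev F (fun s => X s ^ (a * k)) = 0 := by
    intro k hk
    rw [← hxa k hk]
    congr 1
    funext s
    unfold mat
    rw [hX, map_pow, Units.val_pow_eq_pow_val]
  have hpow2 : ∀ k s, Le ((p : ℝ) ^ (-((2 : ℕ) : ℤ))) (X s ^ k - 1) := by
    intro k s
    have := pow_near (rp_pos (p := p) 2).le (le_one_of_near (hX2 s)) le_one (hX2 s) k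
    rwa [_root_.one_pow] at this
  -- the value at one
  have h10 : ev F (fun s => (1 : Matrix (Fin (d s)) (Fin (d s)) ℚ_[p])) = 0 := by
    apply zero_of_le p (C := C)
    intro M'
    -- the power `a * p ^ n` of `X` is close to one
    have h1 : ∀ s, Le ((p : ℝ) ^ (-(M' : ℤ))) ((1 : Matrix (Fin (d s)) (Fin (d s)) ℚ_[p]) -
        X s ^ (a * p ^ M')) := by
      intro s
      have h2 := pow_pow_near (hpow2 a s) M'
      rw [← pow_mul] at h2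
      intro b b'
      have h3 : (1 : Matrix (Fin (d s)) (Fin (d s)) ℚ_[p]) - X s ^ (a * p ^ M') =
        -(X s ^ (a * p ^ M') - 1) := by rw [neg_sub]
      rw [h3, Matrix.neg_apply, norm_neg]
      exact (h2 b b').trans (rp_anti (by omega))
    have h4 := hnear (fun s => 1) (fun s => X s ^ (a * p ^ M')) _ (rp_pos (p := p) M').le
      (fun s => le_one) (fun s => (le_one_of_near (hX2 s)).pow_one _) h1
    rwa [hXa _ (by have := hp.out.pos; positivity), sub_zero] at h4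
  have hX0 : ∀ k, ev F (fun s => X s ^ k) = 0 := by
    intro k
    rcases Nat.eq_zero_or_pos k with hk0 | hk0
    · rw [hk0]
      simp only [pow_zero]
      exact h10
    apply zero_of_le p (C := C)
    intro M'
    refine (ev_approx hC0 hgood (hpow2 k) (M := M') (N := a) (Nat.one_le_iff_ne_zero.2 ha) le_rfl
      (fun l _ => ?_)).trans ?_
    · rcases Nat.eq_zero_or_pos l with hl0 | hl0
      · have h2 : (fun s => (X s ^ k) ^ (a * l)) =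
            fun s => (1 : Matrix (Fin (d s)) (Fin (d s)) ℚ_[p]) := by
          funext s
          rw [hl0, mul_zero, pow_zero]
        rw [h2, h10, norm_zero]
      · have h2 : (fun s => (X s ^ k) ^ (a * l)) = fun s => X s ^ (a * (k * l)) := by
          funext s
          rw [← pow_mul]
          congr 1
          ring
        rw [h2, hXa _ (by positivity), norm_zero]
    · rw [mul_zero]
      exact max_le le_rfl (mul_nonneg hC0 (rp_pos M').le)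
  -- comparison with the power of `g j`
  have hXG : ∀ s, Le ((p : ℝ) ^ (-((j * N j : ℕ) : ℤ))) (X s - G s ^ N j) := by
    intro s
    have hy := hK _ _ hxg hyΓ s
    have e : X s - G s ^ N j =
        ((ρ s ⟨x j * (g j ^ N j)⁻¹, hyΓ⟩ : Matrix (Fin (d s)) (Fin (d s)) ℚ_[p]) - 1) *
          G s ^ N j := by
      have hxy : (⟨x j, hxΓ⟩ : Γ) = ⟨_, hyΓ⟩ * (⟨g j, hgΓ⟩ : Γ) ^ N j := by
        apply Subtype.ext
        change x j = x j * (g j ^ N j)⁻¹ * g j ^ N j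
        rw [inv_mul_cancel_right]
      rw [hX, hG, hxy, map_mul, map_pow, Units.val_mul, Units.val_pow_eq_pow_val, sub_mul, one_mul]
    rw [e]
    have := hy.mul (rp_pos (p := p) _).le zero_le_one ((le_one_of_near (hG2 s)).pow_one (N j))
    rwa [mul_one] at this
  have hGN : ∀ l, ‖ev F (fun s => G s ^ (N j * l))‖ ≤ C * (p : ℝ) ^ (-((j * N j : ℕ) : ℤ)) := by
    intro l
    have h1 := hnear (fun s => G s ^ (N j * l)) (fun s => X s ^ l) _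
      (rp_pos (p := p) (j * N j)).le (fun s => (le_one_of_near (hG2 s)).pow_one _)
      (fun s => (le_one_of_near (hX2 s)).pow_one _) (fun s => by
        have h2 := pow_near (rp_pos (p := p) (j * N j)).le
          ((le_one_of_near (hG2 s)).pow_one (N j)) (le_one_of_near (hX2 s)) (by
            have h3 : G s ^ N j - X s = -(X s - G s ^ N j) := by rw [neg_sub]
            intro a b
            rw [h3, Matrix.neg_apply, norm_neg]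
            exact hXG s a b) l
        rwa [← pow_mul] at h2)
    rwa [hX0, sub_zero] at h1
  have hG1 : ‖ev F G‖ ≤ C * (p : ℝ) ^ (-(M : ℤ)) := by
    refine (ev_approx hC0 hgood hG2 (M := M) hNj (mul_nonneg hC0 (rp_pos (p := p) (j * N j)).le)
      (fun l _ => hGN l)).trans ?_
    refine max_le le_rfl ?_
    have h1 := precision p (M := M) hNj (by omega : M * M + 2 * M ≤ j)
    calc ((N j * M : ℕ) : ℝ) ^ M * (C * (p : ℝ) ^ (-((j * N j : ℕ) : ℤ)))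
        = C * (((N j * M : ℕ) : ℝ) ^ M * (p : ℝ) ^ (-((j * N j : ℕ) : ℤ))) := by ring
      _ ≤ _ := mul_le_mul_of_nonneg_left h1 hC0
  -- comparison of `γ` and `g j`
  have hGB : ∀ s, Le ((p : ℝ) ^ (-(M : ℤ))) (B s - G s) := by
    intro s
    have hdΓ : γ⁻¹ * g j ∈ Γ := hKΓ _ hgj
    have hd := hK _ _ hgj hdΓ s
    have e : B s - G s = -(B s *
        ((ρ s ⟨γ⁻¹ * g j, hdΓ⟩ : Matrix (Fin (d s)) (Fin (d s)) ℚ_[p]) - 1)) := by
      have hxy : (⟨g j, hgΓ⟩ : Γ) = ⟨γ, hγΓ⟩ * ⟨_, hdΓ⟩ := by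
        apply Subtype.ext
        change g j = γ * (γ⁻¹ * g j)
        rw [mul_inv_cancel_left]
      rw [hG, hB, hxy, map_mul, Units.val_mul, mul_sub, mul_one, neg_sub]
    intro a b
    rw [e, Matrix.neg_apply, norm_neg]
    have h1 := (le_one_of_near (hB2 s)).mul zero_le_one (rp_pos (p := p) (M + 2)).le hd
    rw [one_mul] at h1
    exact (h1 a b).trans (rp_anti (by omega))
  have h1 := hnear B G _ (rp_pos (p := p) M).le (fun s => le_one_of_near (hB2 s))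
    (fun s => le_one_of_near (hG2 s)) hGB
  have h2 : ev F B = (ev F B - ev F G) + ev F G := by ring
  have h3 : mat ρ ⟨γ, hγΓ⟩ = B := (funext hB).symm
  rw [h3, h2]
  exact (Padic.nonarchimedean _ _).trans (max_le h1 hG1)

/-- **Polynomial relations at a sparse set of Frobenius elements.** -/
theorem main (f : ℕ → ℕ) :
    ∃ (T : ℕ → ℕ) (k L : IntermediateField ℚ (AlgebraicClosure ℚ)),
      (∀ i, (T i).Prime) ∧ (∀ i, f (T i) + T i < T (i + 1)) ∧ IsTower k L T ∧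
      ∀ (Γ : Subgroup GQ), IsOpen (Γ : Set GQ) → ∀ (p : ℕ) [Fact p.Prime] (m : ℕ) (d : Fin m → ℕ)
        (ρ : ∀ s, Γ →* GL (Fin (d s)) ℚ_[p]), (∀ s, Continuous (ρ s)) →
        (∀ s, ∃ S : Finset ℕ, ∀ q : ℕ, q.Prime → q ∉ S → ∀ P : Ideal ZBar, P.IsMaximal →
          (q : ZBar) ∈ P → ∀ τ : GQ, ∀ h : τ ∈ Γ, InInertia P τ → ρ s ⟨τ, h⟩ = 1) →
        ∃ U : Subgroup GQ, IsOpen (U : Set GQ) ∧ U ≤ Γ ∧
          ∀ F : MvPolynomial (Σ s : Fin m, Fin (d s) × Fin (d s)) ℚ_[p],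
          (∃ i0, ∀ i ≥ i0, ∀ P : Ideal ZBar, P.IsMaximal → (T i : ZBar) ∈ P →
            ∀ σ : GQ, ∀ h : σ ∈ Γ, IsGeomFrob (T i) P σ → ∃ a : ℕ, a ≠ 0 ∧ ∀ k : ℕ, 0 < k →
              ev F (mat ρ (⟨σ, h⟩ ^ (a * k))) = 0) →
          ∀ γ ∈ U, ∀ h : γ ∈ Γ, ev F (mat ρ ⟨γ, h⟩) = 0 := by
  obtain ⟨g, hg⟩ := exists_dense
  obtain ⟨k, L, T, N, x, hT1, hT2, htow, hx1, hN, hx2⟩ := exists_tower f g
  refine ⟨T, k, L, hT1, hT2, htow, ?_⟩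
  intro Γ hΓ p hp m d ρ hρ hS
  obtain ⟨U, hU, hUΓ, h1⟩ := virtual p d hΓ ρ hρ hS g hg N hN x hx2
  refine ⟨U, hU, hUΓ, ?_⟩
  rintro F ⟨i0, hi0⟩
  refine h1 F ⟨i0, ?_⟩
  intro j hj h
  obtain ⟨P, hP, hTP, hxP⟩ := hx1 j
  exact hi0 j hj P hP hTP (x j) h hxP

end Pool.Agent.V1183.SV
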